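import Pool.Agent.Run7.h386.PW.Main

/-!
# Projections of planar sets in the directions of the products of pairwise coprime integers

Let `P` be a finite set of pairwise coprime integers at least `2` and let `A` be any finite set of
points of `ℤ × ℤ` with `|A| ≤ 2 ^ (T |P|)`. Outside of at most `|A| ^ (-η) 2 ^ |P|` of the `2 ^ |P|`
subsets `s` of `P` the projection `{x + m y : (x, y) ∈ A'}`, `m = ∏ s`, of every subset `A'` of `A` with
at least `|A| ^ (1 - η)` elements has at least `c |A| ^ (1 - ε)` elements; `η, c > 0` depend only on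
`T` and `ε`. The same holds for the slopes `(α m + β) / (γ m + δ)` of any nondegenerate fractional
linear transformation with integral coefficients.

So for every `θ > 0` there are explicit sets `S_N` of at most `N ^ θ` positive integral slopes (the
products of the subsets of the set of the first primes, about `θ log_2 N` of them) with
`|π_{-1}(A)| ≤ |A| ≤ C max_{r ∈ S_N} |π_r(A)| ^ (1 + ε)` for all `A` with at most `N` points.

The proof. Energy theorem: for a small `α = α(δ, θ) > 0` and `θ log |A| ≤ |P|` the mean over `s ⊆ P` of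
`∑ r_s(z) ^ (1 + α)`, where `r_s(z)` is the number of points of `A` with `x + (∏ s) y = z`, is at most
`C |A| ^ (1 + α δ)`. It is proved by induction on `|P|`. A prime power `q ^ a` dividing a suitable
`p ∈ P` splits the products into multiples of `q ^ a` and integers prime to `q`; to a point `(x, y)` of
`A` one attaches the last `q`-adic levels at which the branch of `x`, of `y`, is still heavy. According
to the two levels the projection of one of the two kinds, or of both outside few classes of the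
multipliers modulo `q ^ a`, determines the branch of the point, which gives a gain in the induction.
-/

set_option autoImplicit false

open Finset

namespace Pool.Agent.Results.MP_169869_co.CubeOfSlopes

/-- Outside of at most `|A| ^ (-η) 2 ^ |P|` subsets `s` of `P` all `A' ⊆ A` with
`|A'| ≥ |A| ^ (1 - η)` have at least `c |A| ^ (1 - ε)` values of
`(γ m + δ) x + (α m + β) y`, `m = ∏ s`. -/
theorem result (T ε : ℝ) (hT : 0 ≤ T) (hε : 0 < ε) :
    ∃ η c : ℝ, 0 < η ∧ 0 < c ∧ ∀ P : Finset ℕ, (∀ p ∈ P, 2 ≤ p) →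
      (∀ p ∈ P, ∀ p' ∈ P, p ≠ p' → Nat.Coprime p p') →
      ∀ A : Finset (ℤ × ℤ), A.Nonempty → (A.card : ℝ) ≤ 2 ^ (T * P.card) →
      ∀ α β γ δ : ℤ, α * δ ≠ β * γ →
      ∃ 𝒮 ⊆ P.powerset, (𝒮.card : ℝ) ≤ (A.card : ℝ) ^ (-η) * 2 ^ P.card ∧
        ∀ s ∈ P.powerset, s ∉ 𝒮 → ∀ A' ⊆ A, (A.card : ℝ) ^ (1 - η) ≤ A'.card →
          c * (A.card : ℝ) ^ (1 - ε) ≤
            ((A'.image fun z : ℤ × ℤ => (γ * (∏ p ∈ s, (p : ℤ)) + δ) * z.1 +
              (α * (∏ p ∈ s, (p : ℤ)) + β) * z.2).card : ℝ) := by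
  classical
  obtain ⟨η, c, hη, hc, h⟩ := Pool.Agent.Run7.h386.PW.res T ε hT hε
  refine ⟨η, c, hη, hc, ?_⟩
  intro P hP2 hPc A hA hAT α β γ δ hdet
  set φ : ℤ × ℤ → ℤ × ℤ := fun z => (γ * z.1 + α * z.2, δ * z.1 + β * z.2) with hφ
  have hinj : Function.Injective φ := by
    rintro ⟨x, y⟩ ⟨x', y'⟩ h
    simp only [hφ, Prod.mk.injEq] at h
    obtain ⟨h1, h2⟩ := h
    have hd : α * δ - β * γ ≠ 0 := sub_ne_zero.2 hdet
    have e1 : (α * δ - β * γ) * (x - x') = 0 := by linear_combination (-β) * h1 + α * h2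
    have e2 : (α * δ - β * γ) * (y - y') = 0 := by linear_combination δ * h1 - γ * h2
    have f1 := (mul_eq_zero.1 e1).resolve_left hd
    have f2 := (mul_eq_zero.1 e2).resolve_left hd
    exact Prod.ext (sub_eq_zero.1 f1) (sub_eq_zero.1 f2)
  have hcard : ∀ B : Finset (ℤ × ℤ), (B.image φ).card = B.card := fun B =>
    Finset.card_image_of_injective B hinj
  obtain ⟨𝒮, h1, h2, h3⟩ := h P hP2 hPc (A.image φ) (hA.image φ) (by rw [hcard]; exact hAT)
  rw [hcard] at h2
  refine ⟨𝒮, h1, h2, fun s hs hs' A' hA' hcA' => ?_⟩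
  have h4 := h3 s hs hs' (A'.image φ) (Finset.image_subset_image hA')
    (by rw [hcard, hcard]; exact hcA')
  rw [hcard, Finset.image_image] at h4
  have h5 : ((fun w : ℤ × ℤ => ((∏ p ∈ s, p : ℕ) : ℤ) * w.1 + w.2) ∘ φ) =
      fun z : ℤ × ℤ => (γ * (∏ p ∈ s, (p : ℤ)) + δ) * z.1 +
        (α * (∏ p ∈ s, (p : ℤ)) + β) * z.2 := by
    funext z
    simp only [hφ, Function.comp]
    push_cast
    ring
  rw [h5] at h4
  exact h4

end Pool.Agent.Results.MP_169869_co.CubeOfSlopes
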