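import Pool.Agent.Run7.h912.US.Prod
import Pool.Agent.Run7.h912.US.Height

/-! # Near the exponent two: Cartesian products are extremal, and slopes of bounded height

`E(S, κ)` is the inequality `|π₋₁(A)| ≤ (max_{r ∈ S ∪ {∞}} |π_r(A)|) ^ κ` for all finite
`A ⊂ ℤ × ℤ` (`big S A` is the maximum). `E(S, 2)` is trivial when `S` is not empty.

1. For every finite set `S` of at least two finite slopes (no bound on its size), every `s ∈ S` and
   every `κ ∈ [0, 2]`: if the inequality with the exponent `κ` holds for the sets which are Cartesian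
   products `X × Y` in the coordinates `(π_s, π_∞)`, i.e. if
   `|X - (1 + s) Y| ≤ max(|Y|, |X + (r - s) Y| : r ∈ S) ^ κ` for all finite `X, Y ⊂ ℚ`, then
   `E(S, 2 - (2 - κ) / 29)` holds for all sets. (Conversely `E(S, κ)` gives the inequality for the
   products.) So up to the factor `29` the distance of the best exponent from `2` is decided by
   Cartesian products.
2. Let `L ≥ 1`, `s, w ∈ ℚ`, `w ≠ 0` and let `h` be the height of `(1 + s) / w`. If `S` contains
   `s, s + w, …, s + L w` then `E(S, 2 - (1 / 1419) log(L + 1) / log(h (L + 1)))` holds.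
3. Conversely, if `S` is any finite set of slopes `s + q w`, `q ∈ ℚ` of height at most `L`, then for
   every `κ < 2 - 4 log(L + 1) / log(h (L + 1))` the inequality with the exponent `κ` fails, even up to
   any constant.

So for all `S` between the progression of length `L + 1` and the set of all slopes `s + q w`, `q` of
height at most `L`, the best exponent is `2 - Θ(log(L + 1) / log(h (L + 1)))`, with absolute
constants. For instance it is `2 - Θ(log(L + 1) / log(M + L))` for `{M, …, M + L}`.

Proof of 1: the theorem of Balog, Szemeredi and Gowers in a form which serves all the slopes at once and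
keeps the edges. Proof of 2: with the inequalities of Ruzsa and Pluennecke the numbers `a` such that `a H`
is covered by few translates of the approximate group `H` are closed under the expansion in base
`L + 1`, with `O(log h / log (L + 1))` steps for the numerator and the denominator of
`(1 + s) / w`. Proof of 3: boxes. -/

set_option autoImplicit false

open Finset
open Pool.Agent.R470.AK (proj projInf big)
open Run7.h912.US (pbig prog ht)

namespace Pool.Agent.Results.MP_169869_co.ProductsAndHeights

theorem result :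
    -- 1. Cartesian products are extremal near the exponent `2`
    (∀ (S : Finset ℚ) (s : ℚ), s ∈ S → 2 ≤ S.card → ∀ κ : ℝ, 0 ≤ κ → κ ≤ 2 →
      (∀ X Y : Finset ℚ, ((image₂ (fun x y => x - (1 + s) * y) X Y).card : ℝ) ≤
        (max Y.card (S.sup fun r => (image₂ (fun x y => x + (r - s) * y) X Y).card) : ℕ) ^ κ) →
      ∀ A : Finset (ℤ × ℤ), ((proj (-1) A).card : ℝ) ≤ (big S A : ℝ) ^ (2 - (2 - κ) / 29)) ∧
    (∀ (S : Finset ℚ) (s : ℚ) (κ : ℝ),
      (∀ A : Finset (ℤ × ℤ), ((proj (-1) A).card : ℝ) ≤ (big S A : ℝ) ^ κ) →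
      ∀ X Y : Finset ℚ, ((image₂ (fun x y => x - (1 + s) * y) X Y).card : ℝ) ≤
        (max Y.card (S.sup fun r => (image₂ (fun x y => x + (r - s) * y) X Y).card) : ℕ) ^ κ) ∧
    -- 2. the upper bound for progressions of slopes
    (∀ (s w : ℚ), w ≠ 0 → ∀ L : ℕ, 1 ≤ L → ∀ S : Finset ℚ, (∀ j : ℕ, j ≤ L → s + j * w ∈ S) →
      ∀ A : Finset (ℤ × ℤ), ((proj (-1) A).card : ℝ) ≤ (big S A : ℝ) ^
        (2 - 1 / 1419 * (Real.log (L + 1) / Real.log (ht ((1 + s) / w) * (L + 1))))) ∧
    -- 3. the lower bound for slopes of bounded height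
    (∀ (s w : ℚ), w ≠ 0 → ∀ L : ℕ, 1 ≤ L → ∀ S : Finset ℚ,
      (∀ r ∈ S, ∃ q : ℚ, ht q ≤ L ∧ r = s + q * w) → ∀ κ : ℝ,
      κ < 2 - 4 * (Real.log (L + 1) / Real.log (ht ((1 + s) / w) * (L + 1))) → ∀ C : ℝ,
      ∃ A : Finset (ℤ × ℤ), C * (big S A : ℝ) ^ κ < (proj (-1) A).card) := by
  refine ⟨?_, ?_, ?_, ?_⟩
  · intro S s hs hS κ h0 h2 h A
    exact Run7.h912.US.prod_extremal S s hs hS κ h0 h2 h A
  · intro S s κ h X Y
    exact Run7.h912.US.all_prod S s κ h X Y
  · intro s w hw L hL S hS A
    have hsub : prog s w L ⊆ S := by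
      intro r hr
      obtain ⟨j, hj, rfl⟩ := mem_image.1 hr
      exact hS j (by have := mem_range.1 hj; omega)
    refine (Run7.h912.US.prog_upper s w hw L hL A).trans ?_
    refine Real.rpow_le_rpow (Nat.cast_nonneg _) ?_ ?_
    · exact_mod_cast max_le_max le_rfl (Finset.sup_mono hsub)
    · have hLR : (1 : ℝ) ≤ L := by exact_mod_cast hL
      have hh : (1 : ℝ) ≤ ht ((1 + s) / w) := by
        exact_mod_cast Run7.h912.US.one_le_ht ((1 + s) / w)
      have h1 : 0 < Real.log (L + 1) := Real.log_pos (by linarith)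
      have h2 : Real.log (L + 1) ≤ Real.log (ht ((1 + s) / w) * (L + 1)) :=
        Real.log_le_log (by linarith) (by nlinarith)
      have h3 : Real.log (L + 1) / Real.log (ht ((1 + s) / w) * (L + 1)) ≤ 1 :=
        (div_le_one (by linarith)).2 h2
      linarith
  · intro s w hw L hL S hS κ hκ C
    exact Run7.h912.US.height_lower s w hw L hL S hS κ hκ C

end Pool.Agent.Results.MP_169869_co.ProductsAndHeights
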