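import Pool.Agent.TH404.AK.Sdc3
import Pool.Agent.Run7.h605.AKD.Blocks

/-! # The arithmetic Kakeya conjecture is equivalent to its robust form

`κ` is attained if `|π₋₁(A)| ≤ max(|π_∞(A)|, max_{r ∈ S} |π_r(A)|) ^ κ` for all finite `A ⊂ ℤ × ℤ`, for
some finite set `S` of slopes `≠ -1`; the conjecture says that all `κ > 1` are attained.

In the robust form only a proportion `δ` of the incidences between points and slopes is
controlled: `A` is a finite set on which `x - y` is injective, for every `r ∈ S` only a part `T r`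
of `A` has a small projection, `|π_r(T r)| ≤ M`, these parts depend on `r`, and
`∑_{r ∈ S} |T r| ≥ δ |S| |A|`. The conclusion is `|A| ≤ C M ^ κ`.

1. Every attained exponent `κ` is attained robustly for every `δ > 0`, for the slopes of EVERY
   sufficiently long progression in the coordinate `1 / (r + 1)`, with `C` independent of the
   progression and of its length.
2. The same for slopes from any set `R` for which the numbers `1 / (r + 1)`, `r ∈ R`, contain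
   arbitrarily long progressions.
3. For every `δ ∈ (0, 1]` the attained exponents are exactly the robustly attained exponents; so the
   conjecture is equivalent to its robust form, for every `δ`.
4. The exponent `1.669587` is attained robustly.

Proof: Szemerédi's theorem, for the set of the slopes `r` with `p ∈ T r`. -/

set_option autoImplicit false

namespace Pool.Agent.Results.MP_169869_co.RobustForm

open Finset

/-- the projection `π_r(A) = {x + r y : (x, y) ∈ A}` -/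
def proj (r : ℚ) (A : Finset (ℤ × ℤ)) : Finset ℚ :=
  A.image (fun p : ℤ × ℤ => (p.1 : ℚ) + r * (p.2 : ℚ))

/-- the exponent `κ` is attained by the slope `∞` and some finite set of slopes `≠ -1` -/
def Attained (κ : ℝ) : Prop :=
  ∃ S : Finset ℚ, (-1 : ℚ) ∉ S ∧ ∀ A : Finset (ℤ × ℤ),
    ((proj (-1) A).card : ℝ) ≤
      ((max (A.image (fun p : ℤ × ℤ => (p.2 : ℚ))).card (S.sup fun r => (proj r A).card) : ℕ) : ℝ) ^ κ

/-- The robust inequality: if `x - y` is injective on `A`, if `T r ⊆ A` has a projection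
`π_r(T r)` with at most `M` elements for every `r ∈ S`, and if the sets `T r` have average density at
least `δ` in `A`, then `|A| ≤ C M ^ κ`. -/
def RobustBound (δ : ℝ) (S : Finset ℚ) (κ C : ℝ) : Prop :=
  ∀ (A : Finset (ℤ × ℤ)) (T : ℚ → Finset (ℤ × ℤ)) (M : ℕ),
    Set.InjOn (fun p : ℤ × ℤ => p.1 - p.2) (A : Set (ℤ × ℤ)) →
    (∀ r ∈ S, T r ⊆ A ∧ (proj r (T r)).card ≤ M) →
    δ * ((S.card : ℝ) * (A.card : ℝ)) ≤ ∑ r ∈ S, ((T r).card : ℝ) →
    (A.card : ℝ) ≤ C * (M : ℝ) ^ κ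

theorem attained_sdc : Attained 1.669587 := by
  obtain ⟨S, hS, h⟩ := Pool.Agent.TH404.AK.sdc3
  refine ⟨S, hS, fun A => ?_⟩
  have h1 := h A
  have h2 : (1.669587 : ℝ) = 1669587 / 1000000 := by norm_num
  unfold proj
  rw [h2]
  push_cast
  exact h1

theorem long {κ : ℝ} (hκ : 0 ≤ κ) (h : Attained κ) {δ : ℝ} (hδ : 0 < δ) :
    ∃ (L₀ : ℕ) (C : ℝ), 0 < C ∧ ∀ L : ℕ, L₀ ≤ L → ∀ (f : ℕ → ℚ) (a b : ℚ), b ≠ 0 →
      (∀ j < L, f j + 1 ≠ 0 ∧ 1 / (f j + 1) = a + b * j) →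
      RobustBound δ ((range L).image f) κ C := by
  obtain ⟨S₀, h0, hS⟩ := h
  obtain ⟨L₀, C, -, hC, hmain⟩ := Run7.h605.AKD.robust_long hκ h0 hS hδ
  exact ⟨L₀, C, hC, fun L hL f a b hb hf => hmain L hL f a b hb hf⟩

theorem rich {κ : ℝ} (hκ : 0 ≤ κ) (h : Attained κ) {δ : ℝ} (hδ : 0 < δ) (R : Set ℚ)
    (hR : ∀ k : ℕ, ∃ a b : ℚ, b ≠ 0 ∧ ∀ j < k, ∃ r ∈ R, r + 1 ≠ 0 ∧ 1 / (r + 1) = a + b * j) :
    ∃ (S : Finset ℚ) (C : ℝ), (S : Set ℚ) ⊆ R ∧ (-1 : ℚ) ∉ S ∧ RobustBound δ S κ C := by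
  classical
  obtain ⟨L₀, C, -, hmain⟩ := long hκ h hδ
  obtain ⟨a, b, hb, hab⟩ := hR L₀
  choose! f hf1 hf2 hf3 using hab
  refine ⟨(range L₀).image f, C, ?_, ?_, hmain L₀ le_rfl f a b hb fun j hj => ⟨hf2 j hj, hf3 j hj⟩⟩
  · intro r hr
    rw [mem_coe, mem_image] at hr
    obtain ⟨j, hj, rfl⟩ := hr
    exact hf1 j (mem_range.1 hj)
  · intro hr
    rw [mem_image] at hr
    obtain ⟨j, hj, hr⟩ := hr
    refine hf2 j (mem_range.1 hj) ?_
    rw [hr]
    norm_num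

theorem attained_iff {κ : ℝ} (hκ : 0 ≤ κ) {δ : ℝ} (hδ : 0 < δ) (hδ1 : δ ≤ 1) :
    Attained κ ↔ ∃ (S : Finset ℚ) (C : ℝ), (-1 : ℚ) ∉ S ∧ RobustBound δ S κ C := by
  classical
  constructor
  · intro h
    obtain ⟨S, C, -, h1, h2⟩ := rich hκ h hδ {r : ℚ | r ≠ -1} (by
      intro k
      refine ⟨1, 1, one_ne_zero, fun j _ => ⟨1 / (1 + 1 * (j : ℚ)) - 1, ?_, ?_, ?_⟩⟩
      · rw [Set.mem_ofPred_eq]
        intro h3
        have h4 : (1 : ℚ) / (1 + 1 * (j : ℚ)) = 0 := by linarith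
        have h5 : (0 : ℚ) < 1 / (1 + 1 * (j : ℚ)) := by positivity
        linarith
      · have h5 : (0 : ℚ) < 1 / (1 + 1 * (j : ℚ)) := by positivity
        rw [sub_add_cancel]
        exact h5.ne'
      · rw [sub_add_cancel, one_div_one_div])
    exact ⟨S, C, h1, h2⟩
  · rintro ⟨S, C, hS, h⟩
    refine ⟨S, hS, fun A => ?_⟩
    have hc : ∀ A : Finset (ℤ × ℤ), ((Pool.Agent.R470.AK.proj (-1) A).card : ℝ) ≤
        C * ((S.sup fun r => (Pool.Agent.R470.AK.proj r A).card : ℕ) : ℝ) ^ κ := by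
      intro A
      obtain ⟨A', hA', hinj, hcard⟩ := Run7.h605.AKD.exists_reps A
      rw [← hcard]
      refine h A' (fun _ => A') _ hinj (fun r hr => ⟨Subset.rfl, ?_⟩) ?_
      · exact (card_le_card (image_subset_image hA')).trans
          (le_sup (f := fun r => (Pool.Agent.R470.AK.proj r A).card) hr)
      · rw [sum_const, nsmul_eq_mul]
        have h1 : (0 : ℝ) ≤ (S.card : ℝ) * A'.card := by positivity
        nlinarith
    refine (Run7.h605.AKD.amplify hκ hc A).trans ?_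
    refine Real.rpow_le_rpow (Nat.cast_nonneg _) ?_ hκ
    exact_mod_cast le_max_right _ _

theorem result :
    -- 1. all long progressions in the coordinate `1 / (r + 1)`, uniformly
    (∀ κ : ℝ, 0 ≤ κ → Attained κ → ∀ δ : ℝ, 0 < δ →
      ∃ (L₀ : ℕ) (C : ℝ), ∀ L : ℕ, L₀ ≤ L → ∀ (f : ℕ → ℚ) (a b : ℚ), b ≠ 0 →
        (∀ j < L, f j + 1 ≠ 0 ∧ 1 / (f j + 1) = a + b * j) →
        RobustBound δ ((range L).image f) κ C) ∧
    -- 2. slopes from a set `R` with progressions of every length in the coordinate `1 / (r + 1)`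
    (∀ κ : ℝ, 0 ≤ κ → Attained κ → ∀ δ : ℝ, 0 < δ → ∀ R : Set ℚ,
      (∀ k : ℕ, ∃ a b : ℚ, b ≠ 0 ∧ ∀ j < k, ∃ r ∈ R, r + 1 ≠ 0 ∧ 1 / (r + 1) = a + b * j) →
        ∃ (S : Finset ℚ) (C : ℝ), (S : Set ℚ) ⊆ R ∧ (-1 : ℚ) ∉ S ∧ RobustBound δ S κ C) ∧
    -- 3. the attained exponents are the robustly attained exponents, for every `δ ∈ (0, 1]`
    (∀ κ : ℝ, 0 ≤ κ → ∀ δ : ℝ, 0 < δ → δ ≤ 1 →
      (Attained κ ↔ ∃ (S : Finset ℚ) (C : ℝ), (-1 : ℚ) ∉ S ∧ RobustBound δ S κ C)) ∧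
    (∀ δ : ℝ, 0 < δ → δ ≤ 1 →
      ((∀ ε : ℝ, 0 < ε → Attained (1 + ε)) ↔ ∀ ε : ℝ, 0 < ε →
        ∃ (S : Finset ℚ) (C : ℝ), (-1 : ℚ) ∉ S ∧ RobustBound δ S (1 + ε) C)) ∧
    -- 4. the exponent `1.669587`
    (∀ δ : ℝ, 0 < δ → ∃ (L₀ : ℕ) (C : ℝ), ∀ L : ℕ, L₀ ≤ L → ∀ (f : ℕ → ℚ) (a b : ℚ), b ≠ 0 →
      (∀ j < L, f j + 1 ≠ 0 ∧ 1 / (f j + 1) = a + b * j) →
      RobustBound δ ((range L).image f) 1.669587 C) := by
  have key : ∀ κ : ℝ, 0 ≤ κ → Attained κ → ∀ δ : ℝ, 0 < δ →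
      ∃ (L₀ : ℕ) (C : ℝ), ∀ L : ℕ, L₀ ≤ L → ∀ (f : ℕ → ℚ) (a b : ℚ), b ≠ 0 →
        (∀ j < L, f j + 1 ≠ 0 ∧ 1 / (f j + 1) = a + b * j) →
        RobustBound δ ((range L).image f) κ C := by
    intro κ hκ h δ hδ
    obtain ⟨L₀, C, -, hm⟩ := long hκ h hδ
    exact ⟨L₀, C, hm⟩
  refine ⟨key, fun κ hκ h δ hδ R hR => rich hκ h hδ R hR,
    fun κ hκ δ hδ hδ1 => attained_iff hκ hδ hδ1, fun δ hδ hδ1 => ?_,
    fun δ hδ => key _ (by norm_num) attained_sdc δ hδ⟩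
  constructor
  · intro h ε hε
    exact (attained_iff (by linarith) hδ hδ1).1 (h ε hε)
  · intro h ε hε
    exact (attained_iff (by linarith) hδ hδ1).2 (h ε hε)

end Pool.Agent.Results.MP_169869_co.RobustForm
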