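import Pool.Agent.Run7.h84.US.Blocks

/-! # Which sets of `k` slopes are of use in the arithmetic Kakeya conjecture

With the slope `∞` and one finite slope one has the trivial bound
`|π₋₁(A)| ≤ max(|π_∞(A)|, |π_r(A)|) ^ 2`. We determine, for every fixed `k`, the families of sets
`S` of at most `k` finite slopes which give a common exponent `κ < 2`. Let `a ≠ b` be in `S`. The
numbers `μ_r = (r - a) / (b - a)`, `r ∈ S`, are the cross ratios of the slopes of `S` with respect to
`∞, a, b` (the set `crs S a b`), and `-(1 + a) / (b - a)` is the cross ratio of the slope `-1`.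
`Gen T J` is the set of the numbers which are obtained from `0`, `1` and the elements of `T` by field
operations (addition, subtraction, multiplication, division) arranged in `J` layers.

1. For every `J` there is `κ < 2` such that `|π₋₁(A)| ≤ (max_{r ∈ S ∪ {∞}} |π_r(A)|) ^ κ` for all
   finite `A ⊂ ℤ × ℤ` and ALL sets `S` of slopes (of any size) with
   `(1 + a) / (b - a) ∈ Gen (crs S a b) J`: a bounded number of operations gives a common exponent.
2. Conversely, let `k` and `κ < 2` be given. There is `J` such that every set `S` of at most `k` slopes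
   which satisfies the inequality with the exponent `κ` (even up to a constant depending on `S`) has
   `(1 + a) / (b - a) ∈ Gen (crs S a b) J`.
3. Almost all sets of slopes are of no use: for every `k` and `κ < 2` all but `O(N ^ (k + 1))` of the
   `(k + 2)`-tuples of slopes in `{1, …, N}` with `r 0 ≠ r 1` do not satisfy the inequality with the
   exponent `κ`, even up to a constant.
4. Blocks of slopes `{M, …, M + L}` are uniformly of use if and only if `L` is at least a power of `M`:
   for all `κ < 2` there are `δ > 0` and `M₀` such that no subset of `{M, …, M + L}`, `M ≥ M₀`, `L ≤ M ^ δ`,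
   satisfies the inequality with the exponent `κ` (even up to a constant), and for all `δ > 0` there is
   `κ < 2` such that all blocks `{M, …, M + L}` with `L ≥ 2`, `L ≥ M ^ δ` satisfy it. Here the number
   of the slopes is not bounded.
5. Three slopes in geometric progression are uniformly of use: there is `κ < 2` with
   `|π₋₁(A)| ≤ max(|π_∞(A)|, |π_q(A)|, |π_{q²}(A)|, |π_{q³}(A)|) ^ κ` for all `q ≠ 0, 1`.
6. Over an arbitrary infinite field `F` (points of `F × F`, slopes in `F`) a finite set `S` of slopes with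
   elements `a ≠ b` satisfies the inequality with some exponent `κ < 2` (up to a constant) if and only if
   `(1 + a) / (b - a)` is in the field generated by the `(r - a) / (b - a)`, `r ∈ S`.

Proof of 1: a form of the theorem of Balog, Szemeredi and Gowers which keeps the edges and which serves
all slopes at once gives large sets `X`, `W` with many points of `A` over them for which all `W + μ_r X` are
small; by the inequalities of Ruzsa and Pluennecke the `ρ` with small `W + ρ X` are almost a field, and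
`w ↦ w - (1 + a) / (b - a) x` is injective on the points over `X × W`. Proof of 2: the values at
`(μ_r)` of the polynomials of degree and of coefficients below some bound form a set `P` with
`|P + μ_r P| ≤ |P| ^ (1 + η)`, and `w - (1 + a) / (b - a) x` is injective on `P × P` unless
`(1 + a) / (b - a)` is a quotient of differences of elements of `P`. -/

set_option autoImplicit false

open Finset
open Pool.Agent.R470.AK (proj projInf big)
open Pool.Agent.Run7.h84.US

namespace Pool.Agent.Results.MP_169869_co.UsefulSlopes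

theorem result :
    -- 1. a bounded number of field operations gives a common exponent `κ < 2`
    (∀ J : ℕ, ∃ κ : ℝ, κ < 2 ∧ ∀ (S : Finset ℚ) (a b : ℚ), a ∈ S → b ∈ S → a ≠ b →
      (1 + a) / (b - a) ∈ Gen {t | ∃ r ∈ S, t = (r - a) / (b - a)} J →
      ∀ A : Finset (ℤ × ℤ), ((proj (-1) A).card : ℝ) ≤ (big S A : ℝ) ^ κ) ∧
    -- 2. the converse for sets of at most `k` slopes
    (∀ (k : ℕ) (κ : ℝ), κ < 2 → ∃ J : ℕ, ∀ (S : Finset ℚ) (a b : ℚ), S.card ≤ k →
      a ∈ S → b ∈ S → a ≠ b → ∀ C : ℝ,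
      (∀ A : Finset (ℤ × ℤ), ((proj (-1) A).card : ℝ) ≤ C * (big S A : ℝ) ^ κ) →
      (1 + a) / (b - a) ∈ Gen {t | ∃ r ∈ S, t = (r - a) / (b - a)} J) ∧
    -- 3. almost all tuples of slopes are of no use
    (∀ (k : ℕ) (κ : ℝ), κ < 2 → ∃ c : ℕ, ∀ N : ℕ,
      {r : Fin (k + 2) → ℕ | (∀ i, 1 ≤ r i ∧ r i ≤ N) ∧ r 0 ≠ r 1 ∧
        ∃ C : ℝ, ∀ A : Finset (ℤ × ℤ), ((proj (-1) A).card : ℝ) ≤
          C * (big (univ.image fun i => (r i : ℚ)) A : ℝ) ^ κ}.ncard ≤ c * N ^ (k + 1)) ∧
    -- 4. blocks of consecutive slopes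
    (∀ κ : ℝ, κ < 2 → ∃ δ : ℝ, 0 < δ ∧ ∃ M₀ : ℕ, ∀ M L : ℕ, M₀ ≤ M → (L : ℝ) ≤ (M : ℝ) ^ δ →
      ∀ S : Finset ℕ, (∀ r ∈ S, M ≤ r ∧ r ≤ M + L) → ∀ C : ℝ, ∃ A : Finset (ℤ × ℤ),
        C * (big (S.image fun r : ℕ => (r : ℚ)) A : ℝ) ^ κ < (proj (-1) A).card) ∧
    (∀ δ : ℝ, 0 < δ → ∃ κ : ℝ, κ < 2 ∧ ∀ M L : ℕ, 2 ≤ L → (M : ℝ) ^ δ ≤ L →
      ∀ A : Finset (ℤ × ℤ), ((proj (-1) A).card : ℝ) ≤
        (big ((Icc M (M + L)).image fun r : ℕ => (r : ℚ)) A : ℝ) ^ κ) ∧
    -- 5. three slopes in geometric progression are uniformly of use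
    (∃ κ : ℝ, κ < 2 ∧ ∀ q : ℚ, q ≠ 0 → q ≠ 1 → ∀ A : Finset (ℤ × ℤ),
      ((proj (-1) A).card : ℝ) ≤ (big {q, q ^ 2, q ^ 3} A : ℝ) ^ κ) ∧
    -- 6. the criterion over an arbitrary infinite field
    (∀ (F : Type) [Field F] [DecidableEq F] [Infinite F] (S : Finset F) (a b : F),
      a ∈ S → b ∈ S → a ≠ b →
      ((∃ κ : ℝ, κ < 2 ∧ ∃ C : ℝ, ∀ A : Finset (F × F),
        ((A.image fun p => p.1 + (-1) * p.2).card : ℝ) ≤ C * ((max (A.image fun p => p.2).card
          (S.sup fun r => (A.image fun p => p.1 + r * p.2).card) : ℕ) : ℝ) ^ κ) ↔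
      (1 + a) / (b - a) ∈ Subfield.closure {t | ∃ r ∈ S, t = (r - a) / (b - a)})) := by
  refine ⟨int_positive, int_negative, typical, blocks_neg, blocks_pos, ?_, ?_⟩
  · obtain ⟨κ, hκ, h⟩ := int_positive 4
    refine ⟨κ, hκ, fun q h0 h1 A => ?_⟩
    have hab : q ≠ q ^ 2 := by
      intro h2
      have h3 : q * (q - 1) = 0 := by linear_combination (-1) * h2
      rcases mul_eq_zero.1 h3 with h4 | h4
      · exact h0 h4
      · exact h1 (by linarith)
    refine h {q, q ^ 2, q ^ 3} q (q ^ 2) (by simp) (by simp) hab ?_ A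
    have hba : q ^ 2 - q ≠ 0 := sub_ne_zero.2 (Ne.symm hab)
    have hq1 : q - 1 ≠ 0 := sub_ne_zero.2 h1
    have e1 : (q ^ 3 - q) / (q ^ 2 - q) = q + 1 := by
      rw [div_eq_iff hba]
      ring
    set T : Set ℚ := crs {q, q ^ 2, q ^ 3} q (q ^ 2) with hT
    have m0 : q + 1 ∈ Gen T 0 := Or.inr ⟨q ^ 3, by simp, e1.symm⟩
    have o0 : (1 : ℚ) ∈ Gen T 0 := Or.inl (Or.inr rfl)
    have m1 : q ∈ Gen T 1 := ⟨q + 1, m0, 1, o0, Or.inr (Or.inr (Or.inl (by ring)))⟩
    have m2 : q - 1 ∈ Gen T 2 := ⟨q, m1, 1, gen_mono (Nat.zero_le 1) o0,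
      Or.inr (Or.inr (Or.inl rfl))⟩
    have m3 : q * (q - 1) ∈ Gen T 3 := ⟨q, gen_mono (by norm_num) m1, q - 1, m2,
      Or.inr (Or.inr (Or.inr (Or.inl rfl)))⟩
    refine ⟨q + 1, gen_mono (by norm_num) m0, q * (q - 1), m3,
      Or.inr (Or.inr (Or.inr (Or.inr ?_)))⟩
    rw [add_comm 1 q]
    congr 1
    ring
  · intro F _ _ _ S a b ha hb hab
    exact field_iff S a b ha hb hab

end Pool.Agent.Results.MP_169869_co.UsefulSlopes
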